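import Pool.Agent.Helper56.LD.Basics
import Pool.Agent.Helper56.LD.Goals

set_option autoImplicit false

/-! MP_0152c0_gt, packet LD-SM4: upper semicontinuity, parametrized form. -/

namespace Pool.Agent.Helper50.LD

open Set Filter Topology Pool.Agent.Helper56.LD

lemma ev_coord {X L : Type} [TopologicalSpace L] [DiscreteTopology L] {u : Filter X}
    {f : X → ℕ → L} {e : ℕ → L} (h : Tendsto f u (𝓝 e)) (j : ℕ) : ∀ᶠ x in u, f x j = e j := by
  have h1 : Tendsto (fun x => f x j) u (𝓝 (e j)) := (tendsto_pi_nhds.1 h) j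
  rw [nhds_discrete] at h1
  exact tendsto_pure.1 h1

lemma ev_coords {X L : Type} [TopologicalSpace L] [DiscreteTopology L] {u : Filter X}
    {f : X → ℕ → L} {e : ℕ → L} (h : Tendsto f u (𝓝 e)) (K : ℕ) :
    ∀ᶠ x in u, ∀ j < K, f x j = e j := by
  induction K with
  | zero => exact Eventually.of_forall (fun x j hj => absurd hj (Nat.not_lt_zero j))
  | succ K ih =>
    filter_upwards [ih, ev_coord h K] with x h1 h2 j hj
    rcases Nat.lt_succ_iff_lt_or_eq.1 hj with h' | h'
    · exact h1 j h'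
    · rw [h']; exact h2

theorem usc : StmtUSC := by
  intro L Ω _ _ _ _ _ _ lt b E hE A S hSE hcl hA hm hK
  obtain ⟨m0, hm0⟩ := hm
  set R : Set ((ℕ → L) × ℝ × Amb L Ω) := {q | q.1 ∈ A ∧ q.2.1 ∈ Icc (0 : ℝ) 1 ∧
      q.2.2 ∈ GS lt b E (S q.1) q.2.1} with hR
  set R0 : Set ((ℕ → L) × ℝ × Amb L Ω) := {q | q.1 ∈ A ∧ q.2.1 ∈ Icc (0 : ℝ) 1 ∧
      q.2.2 ∈ YS lt b E (S q.1) q.2.1} with hR0
  have hsub : R ⊆ closure R0 := by
    rintro ⟨a, τ, y⟩ ⟨ha, hτ, hy⟩
    have hc : Continuous (fun z : Amb L Ω => (a, τ, z)) := by fun_prop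
    have h1 : (a, τ, y) ∈ closure ((fun z : Amb L Ω => (a, τ, z)) '' YS lt b E (S a) τ) :=
      image_closure_subset_closure_image hc ⟨y, hy, rfl⟩
    refine closure_mono ?_ h1
    rintro _ ⟨z, hz, rfl⟩
    exact ⟨ha, hτ, hz⟩
  have hsub2 : closure R0 ⊆ R := by
    rintro ⟨a, τ, y⟩ hq
    obtain ⟨u, hu, hle⟩ := mem_closure_iff_ultrafilter.1 hq
    have H : ∀ q : (ℕ → L) × ℝ × Amb L Ω, ∃ (n : ℕ) (e : ℕ → L) (w : ℝ) (s : ℕ → L), q ∈ R0 →
        (w ∈ Icc (0 : ℝ) 1 ∧ q.2.2 = pt lt n e w ∧ UB b e n ∧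
          ((e ∈ S q.1 ∧ 1 - 2 * q.2.1 ≤ hgt n w) ∨
            (e ∈ E ∧ s ∈ S q.1 ∧ Eqv b e s ∧ hgt n w ≤ 2 * q.2.1 - 1))) := by
      intro q
      by_cases h : q ∈ R0
      · obtain ⟨n, e, w, hw, hy, hU, h1 | ⟨⟨h1, s, hs, hes⟩, h2⟩⟩ := h.2.2
        · exact ⟨n, e, w, e, fun _ => ⟨hw, hy, hU, Or.inl h1⟩⟩
        · exact ⟨n, e, w, s, fun _ => ⟨hw, hy, hU, Or.inr ⟨h1, hs, hes, h2⟩⟩⟩
      · exact ⟨0, q.1, 0, q.1, fun h' => absurd h' h⟩
    choose N Ef W Sf hH using H
    have hev : ∀ᶠ q in (u : Filter _), q ∈ R0 := hu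
    have hcL : CompactSpace L := Finite.compactSpace
    -- limits
    have ta : Tendsto (fun q : (ℕ → L) × ℝ × Amb L Ω => q.1) u (𝓝 a) :=
      (continuous_fst.tendsto (a, τ, y)).mono_left hle
    have tτ : Tendsto (fun q : (ℕ → L) × ℝ × Amb L Ω => q.2.1) u (𝓝 τ) :=
      ((continuous_fst.comp continuous_snd).tendsto (a, τ, y)).mono_left hle
    have ty : Tendsto (fun q : (ℕ → L) × ℝ × Amb L Ω => q.2.2) u (𝓝 y) :=
      ((continuous_snd.comp continuous_snd).tendsto (a, τ, y)).mono_left hle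
    have ty1 : Tendsto (fun q : (ℕ → L) × ℝ × Amb L Ω => q.2.2.1) u (𝓝 y.1) :=
      (continuous_fst.tendsto y).comp ty
    obtain ⟨e, -, te'⟩ := isCompact_univ.ultrafilter_le_nhds (u.map Ef) (by simp)
    have te : Tendsto Ef u (𝓝 e) := te'
    obtain ⟨s, -, ts'⟩ := isCompact_univ.ultrafilter_le_nhds (u.map Sf) (by simp)
    have ts : Tendsto Sf u (𝓝 s) := ts'
    obtain ⟨w, hw, tw'⟩ := (isCompact_Icc (a := (0:ℝ)) (b := 1)).ultrafilter_le_nhds (u.map W) (by
      rw [Ultrafilter.coe_map, le_principal_iff, mem_map]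
      filter_upwards [hev] with q hq
      exact (hH q hq).1)
    have tw : Tendsto W u (𝓝 w) := tw'
    have haA : a ∈ A := hA.mem_of_tendsto ta (hev.mono fun q hq => hq.1)
    have hτI : τ ∈ Icc (0 : ℝ) 1 := isClosed_Icc.mem_of_tendsto tτ (hev.mono fun q hq => hq.2.1)
    refine ⟨haA, hτI, ?_⟩
    change y ∈ GS lt b E (S a) τ
    have hy1 : ∀ᶠ q in (u : Filter _), q.2.2.1 = hgt (N q) (W q) := by
      filter_upwards [hev] with q hq
      rw [(hH q hq).2.1]; rfl
    have hcase : ∀ᶠ q in (u : Filter _), ((Ef q ∈ S q.1 ∧ 1 - 2 * q.2.1 ≤ hgt (N q) (W q)) ∨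
            (Ef q ∈ E ∧ Sf q ∈ S q.1 ∧ Eqv b (Ef q) (Sf q) ∧ hgt (N q) (W q) ≤ 2 * q.2.1 - 1)) :=
      hev.mono fun q hq => (hH q hq).2.2.2
    rcases lt_or_ge 0 y.1 with hpos | hneg
    · -- level bounded
      obtain ⟨M, hM⟩ : ∃ M : ℕ, (1 : ℝ) / 2 ^ M < y.1 := by
        obtain ⟨n, hn⟩ := exists_pow_lt_of_lt_one hpos (by norm_num : (1/2 : ℝ) < 1)
        exact ⟨n, by rwa [one_div_pow] at hn⟩
      have hN : ∀ᶠ q in (u : Filter _), N q < M := by
        filter_upwards [hev, hy1, ty1.eventually (lt_mem_nhds hM)] with q hq h1 h2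
        rw [h1] at h2
        by_contra hc
        push Not at hc
        have h3 := hgt_le (n := N q) (hH q hq).1.2
        have h4 : (1 : ℝ) / 2 ^ (N q) ≤ 1 / 2 ^ M :=
          one_div_le_one_div_of_le (by positivity) (pow_le_pow_right₀ (by norm_num) hc)
        linarith
      obtain ⟨n, -, hn⟩ := Ultrafilter.eq_pure_of_finite_mem (f := u.map N) (Set.finite_Iio M) hN
      have hNn : ∀ᶠ q in (u : Filter _), N q = n := by
        have : {n} ∈ u.map N := by rw [hn]; exact Ultrafilter.mem_pure.2 rfl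
        exact this
      have hyp : y = pt lt n e w := by
        have h1 : Tendsto (fun q => pt lt n (Ef q) (W q)) u (𝓝 (pt lt n e w)) :=
          ((continuous_pt lt n).tendsto (e, w)).comp (te.prodMk_nhds tw)
        have h2 : Tendsto (fun q : (ℕ → L) × ℝ × Amb L Ω => q.2.2) u (𝓝 (pt lt n e w)) := by
          refine h1.congr' ?_
          filter_upwards [hev, hNn] with q hq hq'
          rw [(hH q hq).2.1, hq']
        exact tendsto_nhds_unique ty h2
      have hUB : UB b e n := by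
        have h1 : ∀ᶠ q in (u : Filter ((ℕ → L) × ℝ × Amb L Ω)), UB b e n := by
          filter_upwards [hev, hNn, ev_coords te (n + 1)] with q hq hq' hq''
          have h3 := (hH q hq).2.2.1
          rw [hq'] at h3
          exact h3.congr (fun j hj => (hq'' j (by omega)).symm)
        obtain ⟨_, h⟩ := h1.exists
        exact h
      have thgt : Tendsto (fun q => hgt n (W q)) u (𝓝 (hgt n w)) :=
        ((continuous_hgt n).tendsto w).comp tw
      apply subset_closure
      rcases Ultrafilter.eventually_or.1 hcase with h1 | h2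
      · refine ⟨n, e, w, hw, hyp, hUB, Or.inl ⟨?_, ?_⟩⟩
        · have := hcl.mem_of_tendsto (ta.prodMk_nhds te) (by
            filter_upwards [hev, h1] with q hq hq'
            exact ⟨hq.1, hq'.1⟩)
          exact this.2
        · have t1 : Tendsto (fun q : (ℕ → L) × ℝ × Amb L Ω => 1 - 2 * q.2.1) u (𝓝 (1 - 2 * τ)) :=
            (tτ.const_mul 2).const_sub 1
          refine le_of_tendsto_of_tendsto t1 thgt ?_
          filter_upwards [h1, hNn] with q hq hq'
          rw [← hq']; exact hq.2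
      · refine ⟨n, e, w, hw, hyp, hUB, Or.inr ⟨⟨?_, s, ?_, ?_⟩, ?_⟩⟩
        · exact hE.mem_of_tendsto te (h2.mono fun q hq => hq.1)
        · have := hcl.mem_of_tendsto (ta.prodMk_nhds ts) (by
            filter_upwards [hev, h2] with q hq hq'
            exact ⟨hq.1, hq'.2.1⟩)
          exact this.2
        · intro k
          have h3 : ∀ᶠ q in (u : Filter ((ℕ → L) × ℝ × Amb L Ω)),
              (UB b e k ↔ UB b s k) ∧ (¬ UB b e k → e k = s k) := by
            filter_upwards [h2, ev_coords te (k + 1), ev_coords ts (k + 1)] with q hq he hs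
            have heq : UB b e k ↔ UB b (Ef q) k :=
              ⟨fun h => h.congr (fun j hj => he j (by omega)),
                fun h => h.congr (fun j hj => (he j (by omega)).symm)⟩
            have hsq : UB b s k ↔ UB b (Sf q) k :=
              ⟨fun h => h.congr (fun j hj => hs j (by omega)),
                fun h => h.congr (fun j hj => (hs j (by omega)).symm)⟩
            rw [heq, hsq, ← he k (by omega), ← hs k (by omega)]
            exact hq.2.2.1 k
          obtain ⟨_, h⟩ := h3.exists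
          exact h
        · have t1 : Tendsto (fun q : (ℕ → L) × ℝ × Amb L Ω => 2 * q.2.1 - 1) u (𝓝 (2 * τ - 1)) :=
            (tτ.const_mul 2).sub_const 1
          refine le_of_tendsto_of_tendsto thgt t1 ?_
          filter_upwards [h2, hNn] with q hq hq'
          rw [← hq']; exact hq.2.2.2
    · -- level unbounded
      obtain ⟨K, hK'⟩ := hK a haA
      have hNge : ∀ M : ℕ, ∀ᶠ q in (u : Filter _), M ≤ N q := by
        intro M
        have h0 : y.1 < 1 / 2 ^ (M + 1) := lt_of_le_of_lt hneg (by positivity)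
        filter_upwards [hev, hy1, ty1.eventually (gt_mem_nhds h0)] with q hq h1 h2
        rw [h1] at h2
        by_contra hc
        push Not at hc
        have h3 := hgt_ge (n := N q) (hH q hq).1.1
        have h4 : (1 : ℝ) / 2 ^ (M + 1) ≤ 1 / 2 ^ (N q + 1) :=
          one_div_le_one_div_of_le (by positivity) (pow_le_pow_right₀ (by norm_num) (by omega))
        linarith
      have haK : ∀ᶠ q in (u : Filter ((ℕ → L) × ℝ × Amb L Ω)), ∀ j < K, q.1 j = a j :=
        ev_coords ta K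
      apply mem_closure_of_tendsto ty
      rcases Ultrafilter.eventually_or.1 hcase with h1 | h2
      · have hτ0 : 1 - 2 * τ ≤ 0 := by
          have t1 : Tendsto (fun q : (ℕ → L) × ℝ × Amb L Ω => 1 - 2 * q.2.1) u (𝓝 (1 - 2 * τ)) :=
            (tτ.const_mul 2).const_sub 1
          have : 1 - 2 * τ ≤ y.1 := by
            refine le_of_tendsto_of_tendsto t1 ty1 ?_
            filter_upwards [h1, hy1] with q hq hq'
            rw [hq']; exact hq.2
          linarith
        filter_upwards [hev, h1, hNge K, haK] with q hq hq1 hq2 hq3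
        obtain ⟨hw', hy', hU', -⟩ := hH q hq
        have hES : Ef q ∈ S a := hK' q.1 hq.1 hq3 (Ef q) hq1.1 (hU'.mono hq2)
        exact ⟨N q, Ef q, W q, hw', hy', hU', Or.inl ⟨hES, hτ0.trans (hgt_pos hw'.1).le⟩⟩
      · have hτ0 : 1 - 2 * τ ≤ 0 := by
          have t1 : Tendsto (fun q : (ℕ → L) × ℝ × Amb L Ω => 1 - 2 * q.2.1) u (𝓝 (1 - 2 * τ)) :=
            (tτ.const_mul 2).const_sub 1
          refine le_of_tendsto t1 ?_
          filter_upwards [hev, h2] with q hq hq'
          have := hgt_pos (n := N q) (hH q hq).1.1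
          linarith [hq'.2.2.2]
        filter_upwards [hev, h2, hNge K, hNge m0, haK] with q hq hq1 hq2 hq2' hq3
        obtain ⟨hw', hy', hU', -⟩ := hH q hq
        have hES0 : Ef q ∈ S q.1 :=
          hm0 q.1 hq.1 (Ef q) ⟨hq1.1, Sf q, hq1.2.1, hq1.2.2.1⟩ (hU'.mono hq2')
        have hES : Ef q ∈ S a := hK' q.1 hq.1 hq3 (Ef q) hES0 (hU'.mono hq2)
        exact ⟨N q, Ef q, W q, hw', hy', hU', Or.inl ⟨hES, hτ0.trans (hgt_pos hw'.1).le⟩⟩
  have : R = closure R0 := Subset.antisymm hsub hsub2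
  rw [this]
  exact isClosed_closure

end Pool.Agent.Helper50.LD
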